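import Mathlib
import Pool.Agent.H68.L.R_seed8.W262.TW.Defs

/-!
# Quadratic twists of hyperelliptic curves: statements of the parts
-/

namespace Pool.Agent.W262.TW

open Finset Pool.Agent.W262.RK Polynomial

/-- BLT: bilinear sums of Jacobi symbols under a hyperbola -/
def BLT : Prop := ∃ (C : ℝ) (E : ℕ), ∀ V T : ℕ, 2 ≤ V → 2 ≤ T → ∀ a b : ℕ → ℝ,
  (∀ m, |a m| ≤ 1) → (∀ m, |b m| ≤ 1) → (∀ m, a m ≠ 0 → Odd m ∧ Squarefree m) →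
  (∀ m, b m ≠ 0 → Odd m ∧ Squarefree m) →
  |∑ m ∈ Ioc V T, ∑ n ∈ (Ioc V T).filter (fun n => m * n ≤ T), a m * b n * Jr m n| ≤
    C * (Real.log T) ^ E * T * (V : ℝ) ^ (-(1 / 24 : ℝ))

/-- LINK: the terms with two large linked variables -/
def LINK : Prop := ∀ (ι I : Type) [Fintype ι] [DecidableEq ι] (g : ι → I) (L : ι → ι → Bool),
  (∀ a b, L a b = true → g a ≠ g b) → ∃ (C : ℝ) (E : ℕ), ∀ (z Y V V0 : ℕ) (κ : ι → ℤ)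
  (b : ι → ℕ → ℝ), 2 ≤ z → 3 ≤ Y → 2 ≤ V0 → (∀ a p, |b a p| ≤ 1) → ∀ (A : Finset ι) (a0 b0 : ι),
  a0 ∈ A → b0 ∈ A → L a0 b0 = true → L b0 a0 = false →
  |∑ e ∈ (TT g z Y V).filter (fun e => ∀ a, a ∈ A ↔ V0 < e a),
    (∏ a, mf (b a) (e a)) * Sym L κ e| ≤ C * (Real.log Y) ^ E * Y * (V0 : ℝ) ^ (-(1 / 24 : ℝ))

/-- TRIV: the trivial bound, mean value of a multiplicative function -/
def TRIV : Prop := ∀ (ι : Type) [Fintype ι] [DecidableEq ι], ∃ C : ℝ, ∀ (z Y V0 : ℕ)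
  (b : ι → ℕ → ℝ) (A : Finset ι), 3 ≤ Y → 1 ≤ V0 →
  (∀ a p, 0 ≤ b a p ∧ b a p ≤ 1) →
  ∑ e ∈ (TT (fun a : ι => a) z Y 0).filter (fun e => ∀ a, a ∉ A → e a ≤ V0),
    ∏ a, mf (b a) (e a) ≤ C * (Y / Real.log Y) * (1 + Real.log V0) ^ Fintype.card ι *
      Real.exp (∑ p ∈ PS z Y, (∑ a ∈ A, b a p) / p)

/-- CORE: linked variables with the condition `product ≤ Y` -/
def CORE : Prop := ∀ (ι I : Type) [Fintype ι] [DecidableEq ι] (g : ι → I) (L : ι → ι → Bool),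
  (∀ a b, L a b = true → g a ≠ g b) → ∀ ε : ℝ, 0 < ε → ∃ B : ℕ, ∀ B' : ℕ, ∃ C : ℝ,
  ∀ (z Y V V0 : ℕ) (κ : ι → ℤ) (b : ι → ℕ → ℝ) (M : ℝ), 2 ≤ z → 3 ≤ Y → 2 ≤ V0 →
  (Real.log Y) ^ B ≤ V0 → (V0 : ℝ) ≤ (Real.log Y) ^ B' → (V = 0 ∨ V0 ^ Fintype.card ι ≤ V) →
  (∀ a p, |b a p| ≤ 1) → 1 ≤ M →
  (∀ A : Finset ι, (∀ a ∈ A, ∀ c ∈ A, L a c = L c a) → (V = 0 ∨ ∀ i, ∃ a ∈ A, g a = i) →
    Real.exp (∑ p ∈ PS z Y, (∑ a ∈ A, |b a p|) / p) ≤ M) →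
  |∑ e ∈ TT g z Y V, (∏ a, mf (b a) (e a)) * Sym L κ e| ≤
    C * Y * (Real.log Y) ^ (ε - 1) * M

/-- EXPA: Fourier expansion of the conditions -/
def EXPA : Prop := ∀ (K : Type) [Fintype K] [DecidableEq K] (z Y V : ℕ) (κ : K → ℤ)
  (Θ : K → ℕ → Finset (Finset K)), 2 ≤ z → (∀ k, ∀ p : ℕ, p.Prime → (p : ℤ) ∣ κ k → p ≤ z) →
  (∀ i p, Θ i p ⊆ (univ.erase i).powerset) →
  (cnt z Y V κ Θ : ℝ) = ∑ e ∈ TT (Prod.fst : K × Finset K → K) z Y V,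
    (∏ a, mf (bb Θ a) (e a)) * Sym LK (κK κ) e

/-- COMB0: weights of the unlinked sets -/
def COMB0 : Prop := ∀ (K : Type) [Fintype K] [DecidableEq K] (z Y : ℕ)
  (Θ : K → ℕ → Finset (Finset K)) (w : ℝ), 0 ≤ w → (∀ i p, Θ i p ⊆ (univ.erase i).powerset) →
  (∀ i, ∑ p ∈ PS z Y, ((Θ i p).card : ℝ) / p ≤ w) → ∀ A : Finset (K × Finset K),
  (∀ a ∈ A, ∀ c ∈ A, LK a c = LK c a) → ∑ p ∈ PS z Y, (∑ a ∈ A, |bb Θ a p|) / p ≤ w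

/-- COMB1: weights of the unlinked sets in which all types occur -/
def COMB1 : Prop := ∀ (K : Type) [Fintype K] [DecidableEq K] (z Y : ℕ)
  (Θ : K → ℕ → Finset (Finset K)) (w : ℝ), 0 ≤ w → (∀ i p, Θ i p ⊆ (univ.erase i).powerset) →
  (∑ i, ∑ p ∈ PS z Y, ((Θ i p).card : ℝ) / p ≤ w * 2 ^ (Fintype.card K - 1)) →
  ∀ A : Finset (K × Finset K), (∀ a ∈ A, ∀ c ∈ A, LK a c = LK c a) →
  (∀ i, ∃ a ∈ A, a.1 = i) → ∑ p ∈ PS z Y, (∑ a ∈ A, |bb Θ a p|) / p ≤ w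

/-- ABS0: the number of the tuples with prescribed signs -/
def ABS0 : Prop := ∀ (K : Type) [Fintype K] [DecidableEq K] (ε : ℝ), 0 < ε → ∃ C : ℝ,
  ∀ (z Y : ℕ) (κ : K → ℤ) (Θ : K → ℕ → Finset (Finset K)) (w : ℝ), 2 ≤ z → 3 ≤ Y → 0 ≤ w →
  (∀ k, ∀ p : ℕ, p.Prime → (p : ℤ) ∣ κ k → p ≤ z) → (∀ i p, Θ i p ⊆ (univ.erase i).powerset) →
  (∀ i, ∑ p ∈ PS z Y, ((Θ i p).card : ℝ) / p ≤ w) →
  (cnt z Y 0 κ Θ : ℝ) ≤ C * Y * (Real.log Y) ^ (ε - 1) * Real.exp w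

/-- ABS1: the same for tuples of large numbers -/
def ABS1 : Prop := ∀ (K : Type) [Fintype K] [DecidableEq K] (ε : ℝ), 0 < ε → ∃ B : ℕ, ∀ B' : ℕ,
  ∃ C : ℝ, ∀ (z Y V : ℕ) (κ : K → ℤ) (Θ : K → ℕ → Finset (Finset K)) (w : ℝ), 2 ≤ z → 3 ≤ Y →
  (Real.log Y) ^ B ≤ V → (V : ℝ) ≤ (Real.log Y) ^ B' → 0 ≤ w →
  (∀ k, ∀ p : ℕ, p.Prime → (p : ℤ) ∣ κ k → p ≤ z) → (∀ i p, Θ i p ⊆ (univ.erase i).powerset) →
  (∑ i, ∑ p ∈ PS z Y, ((Θ i p).card : ℝ) / p ≤ w * 2 ^ (Fintype.card K - 1)) →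
  (cnt z Y V κ Θ : ℝ) ≤ C * Y * (Real.log Y) ^ (ε - 1) * Real.exp w

/-- ANT: for irreducible nonlinear `f i` the average of the number of the sign patterns is smaller
than `1` -/
def ANT : Prop := ∀ (K : Type) [Fintype K] [DecidableEq K] (f : K → ℤ[X]),
  (∀ k, Irreducible ((f k).map (Int.castRingHom ℚ))) → (∀ k, 2 ≤ (f k).natDegree) → ∀ i,
  ∃ η : ℝ, 0 < η ∧ ∃ C : ℝ, ∀ z x : ℕ, 3 ≤ x →
    ∑ p ∈ PS z x, ((Th f i p).card : ℝ) / p ≤ (1 - η) * Real.log (Real.log x) + C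

/-- LOC3: local analysis of the coverings at a prime `p > z0` -/
def LOC3 : Prop := ∀ (K : Type) [Fintype K] [DecidableEq K] (f : K → ℤ[X]),
  (∀ k, Irreducible ((f k).map (Int.castRingHom ℚ))) → (∀ k, Even (f k).natDegree) →
  (∀ k l, k ≠ l → ¬ Associated ((f k).map (Int.castRingHom ℚ)) ((f l).map (Int.castRingHom ℚ))) →
  ∃ z0 : ℕ, ∀ (p : ℕ) [Fact p.Prime], z0 < p → ∀ δ : K → ℤ, (∀ k, Squarefree (δ k)) →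
    HasPt f δ ℚ_[p] → ∀ i, (p : ℤ) ∣ δ i →
      (∀ k, k ≠ i → ¬ (p : ℤ) ∣ δ k) ∧ ngs δ i p ∈ Th f i p

/-- RED3: reduction of the twists with a locally soluble covering to tuples -/
def RED3 : Prop := ∀ (K : Type) [Fintype K] [DecidableEq K] (f : K → ℤ[X]),
  (∀ k, Irreducible ((f k).map (Int.castRingHom ℚ))) → (∀ k, Even (f k).natDegree) →
  (∀ k l, k ≠ l → ¬ Associated ((f k).map (Int.castRingHom ℚ)) ((f l).map (Int.castRingHom ℚ))) →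
  ∃ z0 : ℕ, ∀ z, z0 ≤ z → ∀ X : ℕ,
    {d : ℤ | d.natAbs ≤ X ∧ Squarefree d ∧ Sel f d}.ncard ≤
      (EE z).card * ∑ κ ∈ Fintype.piFinset (fun _ : K => EE z), cnt z X 0 κ (Th f)

end Pool.Agent.W262.TW
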